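import Pool.Agent.helper63.TI.SpecA

set_option autoImplicit false

namespace Pool.Agent.TI

open Polynomial NumberField Pool.Agent.GJ Pool.Agent.TK Pool.Agent.TQ Pool.Agent.TFQ Pool.Agent.TD Pool.Agent.AQ
open Pool.Agent.FJ (VT Om chiO IsFrobO rf rs)
open scoped TensorProduct

noncomputable section

/-- the coordinates of `1 ⊗ E b_k` -/
lemma PER_one {q : ℕ} [Fact q.Prime] {V : Type} [AddCommGroup V] [Module ℚ_[q] V] {M : ℕ}
    (b : Module.Basis (Fin M) ℚ_[q] V) (f : PadicAlgCl q ⊗[ℚ_[q]] V →ₗ[PadicAlgCl q] PadicAlgCl q) (x : V)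
    (hx : ∀ l, ‖b.repr x l‖ ≤ 1) : ‖f (1 ⊗ₜ[ℚ_[q]] x)‖ ≤ ∑ l, ‖f (1 ⊗ₜ[ℚ_[q]] b l)‖ := by
  have h1 : (1 : PadicAlgCl q) ⊗ₜ[ℚ_[q]] x =
      ∑ l, (algebraMap ℚ_[q] (PadicAlgCl q) (b.repr x l)) • ((1 : PadicAlgCl q) ⊗ₜ[ℚ_[q]] b l) := by
    conv_lhs => rw [← b.sum_repr x]
    rw [TensorProduct.tmul_sum]
    refine Finset.sum_congr rfl fun l _ => ?_
    rw [TensorProduct.tmul_smul, algebraMap_smul]
  rw [h1, map_sum]
  refine (norm_sum_le _ _).trans (Finset.sum_le_sum fun l _ => ?_)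
  rw [map_smul, smul_eq_mul, norm_mul]
  have h2 : ‖algebraMap ℚ_[q] (PadicAlgCl q) (b.repr x l)‖ = ‖b.repr x l‖ := PadicAlgCl.norm_extends q _
  rw [h2]
  exact mul_le_of_le_one_left (norm_nonneg _) (hx l)

theorem PER (hEGV : EGV_stmt) : PER_stmt := by
  intro q _ V _ _ T hT U n v Φ Y κ y hΦ hκ hUΦ hUY hy ε hε
  obtain ⟨M, b, hTb⟩ := hT
  obtain ⟨δ, hδ, hE⟩ := hEGV (PadicAlgCl q) n y hy ε hε
  -- the inverse of Φ
  have hfin : FiniteDimensional ℚ_[q] V := Module.Finite.of_basis b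
  obtain ⟨Φ', hΦ'⟩ : ∃ Φ' : V →ₗ[ℚ_[q]] V, Φ' ∘ₗ Φ = LinearMap.id ∧ Φ ∘ₗ Φ' = LinearMap.id := by
    have hsur : Function.Surjective Φ := LinearMap.surjective_of_injective hΦ
    let e := LinearEquiv.ofBijective Φ ⟨hΦ, hsur⟩
    refine ⟨e.symm.toLinearMap, ?_, ?_⟩
    · ext x
      exact e.symm_apply_apply x
    · ext x
      exact e.apply_symm_apply x
  have hΦ'U : ∀ w ∈ U, bs Φ' w = κ⁻¹ • w := by
    intro w hw
    have h1 : bs Φ' (bs Φ w) = w := by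
      have : bs Φ' ∘ₗ bs Φ = LinearMap.id := by
        rw [← LinearMap.baseChange_comp, hΦ'.1, LinearMap.baseChange_id]
      exact LinearMap.congr_fun this w
    rw [hUΦ w hw, map_smul] at h1
    conv_rhs => rw [← h1]
    rw [smul_smul, inv_mul_cancel₀ hκ, one_smul]
  -- extension of the coordinate forms
  have hf : ∀ i : Fin n, ∃ f : PadicAlgCl q ⊗[ℚ_[q]] V →ₗ[PadicAlgCl q] PadicAlgCl q,
      ∀ u : U, f (u : PadicAlgCl q ⊗[ℚ_[q]] V) = v.repr u i := by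
    intro i
    obtain ⟨g, hg⟩ := LinearMap.exists_extend (v.coord i)
    refine ⟨g, fun u => ?_⟩
    have := LinearMap.congr_fun hg u
    exact this
  choose f hf using hf
  let bb := b.baseChange (PadicAlgCl q)
  -- the constant
  obtain ⟨C, hC⟩ : ∃ C : ℝ, ∀ i j : Fin n,
      ∑ k, ‖bb.repr (v j : PadicAlgCl q ⊗[ℚ_[q]] V) k‖ * ∑ l, ‖f i (1 ⊗ₜ[ℚ_[q]] b l)‖ ≤ C := by
    refine ⟨∑ i, ∑ j, ∑ k, ‖bb.repr (v j : PadicAlgCl q ⊗[ℚ_[q]] V) k‖ * ∑ l, ‖f i (1 ⊗ₜ[ℚ_[q]] b l)‖, ?_⟩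
    intro i j
    have h0 : ∀ i j : Fin n, 0 ≤
        ∑ k, ‖bb.repr (v j : PadicAlgCl q ⊗[ℚ_[q]] V) k‖ * ∑ l, ‖f i (1 ⊗ₜ[ℚ_[q]] b l)‖ := by
      intro i j
      positivity
    exact (Finset.single_le_sum (f := fun j => ∑ k, ‖bb.repr (v j : PadicAlgCl q ⊗[ℚ_[q]] V) k‖ *
        ∑ l, ‖f i (1 ⊗ₜ[ℚ_[q]] b l)‖) (fun j _ => h0 i j) (Finset.mem_univ j)).trans
      (Finset.single_le_sum (f := fun i => ∑ j, ∑ k, ‖bb.repr (v j : PadicAlgCl q ⊗[ℚ_[q]] V) k‖ *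
        ∑ l, ‖f i (1 ⊗ₜ[ℚ_[q]] b l)‖) (fun i _ => Finset.sum_nonneg fun j _ => h0 i j)
        (Finset.mem_univ i))
  have hqn : ‖(q : PadicAlgCl q)‖ < 1 := by
    have h1 : (q : PadicAlgCl q) = algebraMap ℚ_[q] (PadicAlgCl q) (q : ℚ_[q]) := (map_natCast _ _).symm
    rw [h1]
    have h2 : ‖algebraMap ℚ_[q] (PadicAlgCl q) (q : ℚ_[q])‖ = ‖(q : ℚ_[q])‖ := PadicAlgCl.norm_extends q _
    rw [h2]
    exact Padic.norm_p_lt_one
  obtain ⟨m, hm⟩ : ∃ m : ℕ, ‖(q : PadicAlgCl q)‖ ^ m * C ≤ δ := by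
    have ht : Filter.Tendsto (fun m : ℕ => ‖(q : PadicAlgCl q)‖ ^ m * C) Filter.atTop (nhds (0 * C)) :=
      (tendsto_pow_atTop_nhds_zero_of_lt_one (norm_nonneg _) hqn).mul_const C
    rw [zero_mul] at ht
    obtain ⟨m, hm⟩ := (ht.eventually (gt_mem_nhds hδ)).exists
    exact ⟨m, hm.le⟩
  refine ⟨m, ?_⟩
  intro N H hH hUH
  have hq0 : (q : ℚ_[q]) ≠ 0 := by exact_mod_cast (Fact.out : q.Prime).ne_zero
  have hq0' : (q : PadicAlgCl q) ≠ 0 := by exact_mod_cast (Fact.out : q.Prime).ne_zero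
  -- the error operator
  obtain ⟨E, hEdef⟩ : ∃ E : V →ₗ[ℚ_[q]] V, E = ((q : ℚ_[q]) ^ (N + m))⁻¹ •
      (Φ' ∘ₗ H - LinearMap.id - (q : ℚ_[q]) ^ N • Y) := ⟨_, rfl⟩
  have hET : ∀ t ∈ T, E t ∈ T := by
    intro t ht
    obtain ⟨t', ht', h1⟩ := hH t ht
    have h2 : E t = t' := by
      have h3 : Φ' (H t) = t + (q : ℚ_[q]) ^ N • Y t + (q : ℚ_[q]) ^ (N + m) • t' := by
        rw [h1]
        exact LinearMap.congr_fun hΦ'.1 _
      rw [hEdef]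
      show ((q : ℚ_[q]) ^ (N + m))⁻¹ • (Φ' (H t) - t - (q : ℚ_[q]) ^ N • Y t) = t'
      rw [h3]
      have h4 : t + (q : ℚ_[q]) ^ N • Y t + (q : ℚ_[q]) ^ (N + m) • t' - t - (q : ℚ_[q]) ^ N • Y t =
          (q : ℚ_[q]) ^ (N + m) • t' := by abel
      rw [h4, smul_smul, inv_mul_cancel₀ (pow_ne_zero _ hq0), one_smul]
    rw [h2]
    exact ht'
  have hHE : Φ' ∘ₗ H = LinearMap.id + (q : ℚ_[q]) ^ N • Y + (q : ℚ_[q]) ^ (N + m) • E := by
    rw [hEdef, smul_smul, mul_inv_cancel₀ (pow_ne_zero _ hq0), one_smul]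
    abel
  have hbs : ∀ w : PadicAlgCl q ⊗[ℚ_[q]] V, bs Φ' (bs H w) =
      w + (q : PadicAlgCl q) ^ N • bs Y w + (q : PadicAlgCl q) ^ (N + m) • bs E w := by
    intro w
    have h0 : bs (Φ' ∘ₗ H) = bs Φ' ∘ₗ bs H := LinearMap.baseChange_comp _ _
    have h1 : bs Φ' (bs H w) = bs (Φ' ∘ₗ H) w := by
      rw [h0]
      rfl
    have h00 : bs (LinearMap.id + (q : ℚ_[q]) ^ N • Y + (q : ℚ_[q]) ^ (N + m) • E) =
        LinearMap.id + (q : ℚ_[q]) ^ N • bs Y + (q : ℚ_[q]) ^ (N + m) • bs E := by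
      unfold bs
      rw [LinearMap.baseChange_add, LinearMap.baseChange_add, LinearMap.baseChange_id,
        LinearMap.baseChange_smul, LinearMap.baseChange_smul]
    rw [h1, hHE, h00]
    show w + (q : ℚ_[q]) ^ N • bs Y w + (q : ℚ_[q]) ^ (N + m) • bs E w = _
    have h2 : ∀ (j : ℕ) (z : PadicAlgCl q ⊗[ℚ_[q]] V), ((q : ℚ_[q]) ^ j) • z = ((q : PadicAlgCl q) ^ j) • z := by
      intro j z
      rw [← algebraMap_smul (PadicAlgCl q), map_pow, map_natCast]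
    rw [h2, h2]
  have hκU : ∀ w ∈ U, bs Φ' (bs H w) = κ⁻¹ • bs H w := fun w hw => hΦ'U _ (hUH w hw)
  -- the operator on `U`
  let G0 : PadicAlgCl q ⊗[ℚ_[q]] V →ₗ[PadicAlgCl q] PadicAlgCl q ⊗[ℚ_[q]] V :=
    ((q : PadicAlgCl q) ^ N)⁻¹ • (κ⁻¹ • bs H - LinearMap.id)
  have hG0 : ∀ w, G0 w = ((q : PadicAlgCl q) ^ N)⁻¹ • (κ⁻¹ • bs H w - w) := fun w => rfl
  have hGU : ∀ w ∈ U, G0 w ∈ U := by
    intro w hw
    rw [hG0]
    exact U.smul_mem _ (U.sub_mem (U.smul_mem _ (hUH w hw)) hw)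
  let G : U →ₗ[PadicAlgCl q] U := G0.restrict hGU
  have hG : ∀ w : U, ((G w : U) : PadicAlgCl q ⊗[ℚ_[q]] V) = G0 w := fun w => rfl
  have hGv : ∀ w ∈ U, G0 w = bs Y w + (q : PadicAlgCl q) ^ m • bs E w := by
    intro w hw
    rw [hG0, ← hκU w hw, hbs w]
    have h3 : w + (q : PadicAlgCl q) ^ N • bs Y w + (q : PadicAlgCl q) ^ (N + m) • bs E w - w =
        (q : PadicAlgCl q) ^ N • (bs Y w + (q : PadicAlgCl q) ^ m • bs E w) := by
      rw [smul_add, smul_smul, ← pow_add]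
      abel
    rw [h3, smul_smul, inv_mul_cancel₀ (pow_ne_zero _ hq0'), one_smul]
  -- the entries
  have hent : ∀ i j : Fin n, ‖v.repr (G (v j)) i - (if i = j then y j else 0)‖ ≤ δ := by
    intro i j
    have h1 : v.repr (G (v j)) i = y j * v.repr (v j) i +
        (q : PadicAlgCl q) ^ m * f i (bs E (v j : PadicAlgCl q ⊗[ℚ_[q]] V)) := by
      rw [← hf i (G (v j)), hG, hGv _ (v j).2, map_add, map_smul, smul_eq_mul, hUY j, map_smul,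
        smul_eq_mul, hf i (v j)]
    have h2 : y j * v.repr (v j) i = if i = j then y j else 0 := by
      rw [v.repr_self, Finsupp.single_apply]
      by_cases hij : i = j
      · rw [if_pos hij, if_pos hij.symm, mul_one]
      · rw [if_neg hij, if_neg (fun h => hij h.symm), mul_zero]
    rw [h1, h2, add_sub_cancel_left, norm_mul, norm_pow]
    refine le_trans (mul_le_mul_of_nonneg_left ?_ (by positivity)) hm
    refine le_trans ?_ (hC i j)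
    have h3 : (v j : PadicAlgCl q ⊗[ℚ_[q]] V) =
        ∑ k, bb.repr (v j : PadicAlgCl q ⊗[ℚ_[q]] V) k • ((1 : PadicAlgCl q) ⊗ₜ[ℚ_[q]] b k) := by
      conv_lhs => rw [← bb.sum_repr (v j : PadicAlgCl q ⊗[ℚ_[q]] V)]
      refine Finset.sum_congr rfl fun k _ => ?_
      rw [Module.Basis.baseChange_apply]
    have h4 : f i (bs E (v j : PadicAlgCl q ⊗[ℚ_[q]] V)) =
        ∑ k, bb.repr (v j : PadicAlgCl q ⊗[ℚ_[q]] V) k * f i ((1 : PadicAlgCl q) ⊗ₜ[ℚ_[q]] E (b k)) := by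
      conv_lhs => rw [h3]
      rw [map_sum, map_sum]
      refine Finset.sum_congr rfl fun k _ => ?_
      rw [map_smul, map_smul, smul_eq_mul, LinearMap.baseChange_tmul]
    rw [h4]
    refine (norm_sum_le _ _).trans (Finset.sum_le_sum fun k _ => ?_)
    rw [norm_mul]
    refine mul_le_mul_of_nonneg_left (PER_one b (f i) (E (b k)) ?_) (norm_nonneg _)
    apply (hTb _).mp
    apply hET
    rw [hTb]
    intro l
    rw [b.repr_self, Finsupp.single_apply]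
    split_ifs
    · rw [norm_one]
    · rw [norm_zero]
      exact zero_le_one
  obtain ⟨e, η, he, hη⟩ := hE U v G hent
  refine ⟨e, η, fun t => ?_, hη⟩
  have h1 : G0 (e t : PadicAlgCl q ⊗[ℚ_[q]] V) = η t • (e t : PadicAlgCl q ⊗[ℚ_[q]] V) := by
    rw [← hG, he t]
    rfl
  rw [hG0] at h1
  have h2 : κ⁻¹ • bs H (e t : PadicAlgCl q ⊗[ℚ_[q]] V) - (e t : PadicAlgCl q ⊗[ℚ_[q]] V) =
      ((q : PadicAlgCl q) ^ N * η t) • (e t : PadicAlgCl q ⊗[ℚ_[q]] V) := by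
    rw [mul_smul, ← h1, smul_smul, mul_inv_cancel₀ (pow_ne_zero _ hq0'), one_smul]
  have h3 : κ⁻¹ • bs H (e t : PadicAlgCl q ⊗[ℚ_[q]] V) =
      (1 + (q : PadicAlgCl q) ^ N * η t) • (e t : PadicAlgCl q ⊗[ℚ_[q]] V) := by
    rw [add_smul, one_smul, ← h2]
    abel
  rw [mul_smul, ← h3, smul_smul, mul_inv_cancel₀ hκ, one_smul]

end

end Pool.Agent.TI
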